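import Mathlib
import Pool.Agent.Y834.CD.Poly

/-!
# Sums of a point of a Fourier uniform set and of members of families of bounded energy

Let `g` be a function on the positive integers and `δ` a constant such that the exponential sums of
`g - δ` over `[1, P]` are at most `E`. For families of integers, of which at least `2 t` have bounded
`t`-th energy, the sum of `g - δ` over all `n - ∑ a j (v j)` is small for every `n`.
-/

set_option autoImplicit false

namespace Pool.Agent.Q49.WA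

open Finset
open Pool.Agent.Y834.CD
open Pool.Agent.H373R2.NB (hat norm_chi sum_chi)

theorem prod_le_sum {r : ℕ} (x : Fin r → ℝ) (hx : ∀ j, 0 ≤ x j ∧ x j ≤ 1) {J : Finset (Fin r)} {t : ℕ}
    (ht : 1 ≤ t) (hJ : 2 * t ≤ J.card) : ∏ j, x j ≤ ∑ j ∈ J, x j ^ (2 * t) := by
  classical
  have hne : J.Nonempty := by rw [← Finset.card_pos]; omega
  obtain ⟨j₀, hj₀, hmax⟩ := J.exists_max_image x hne
  have h1 : ∏ j, x j ≤ ∏ j ∈ J, x j := by
    rw [← Finset.prod_mul_prod_compl J]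
    calc (∏ j ∈ J, x j) * ∏ j ∈ Jᶜ, x j ≤ (∏ j ∈ J, x j) * 1 :=
          mul_le_mul_of_nonneg_left (prod_le_one (fun j _ => (hx j).1) (fun j _ => (hx j).2))
            (prod_nonneg fun j _ => (hx j).1)
      _ = _ := mul_one _
  calc ∏ j, x j ≤ ∏ j ∈ J, x j := h1
    _ ≤ ∏ _j ∈ J, x j₀ := prod_le_prod (fun j _ => (hx j).1) (fun j hj => hmax j hj)
    _ = x j₀ ^ J.card := prod_const _
    _ ≤ x j₀ ^ (2 * t) := pow_le_pow_of_le_one (hx j₀).1 (hx j₀).2 hJ
    _ ≤ _ := single_le_sum (f := fun j => x j ^ (2 * t)) (fun j _ => pow_nonneg (hx j).1 _) hj₀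

section
variable {M : ℕ} [NeZero M]

theorem inversion (u : ZMod M → ℝ) (z : ZMod M) :
    ∑ ξ, hat u ξ * (ZMod.stdAddChar (ξ * (-z)) : ℂ) = M * (u z : ℂ) := by
  have h1 : ∀ ξ : ZMod M, hat u ξ * (ZMod.stdAddChar (ξ * (-z)) : ℂ) =
      ∑ m, (u m : ℂ) * ZMod.stdAddChar (ξ * (m - z)) := by
    intro ξ
    unfold hat
    rw [sum_mul]
    apply sum_congr rfl; intro m _
    rw [mul_assoc, ← AddChar.map_add_eq_mul, ← mul_add, ← sub_eq_add_neg]
  rw [sum_congr rfl fun ξ _ => h1 ξ, sum_comm]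
  have h2 : ∀ m : ZMod M, ∑ ξ : ZMod M, (u m : ℂ) * ZMod.stdAddChar (ξ * (m - z)) =
      if m = z then (M : ℂ) * (u m : ℂ) else 0 := by
    intro m
    rw [← mul_sum, sum_chi]
    by_cases h : m = z
    · rw [if_pos h, if_pos (by rw [h]; ring)]; ring
    · rw [if_neg h, if_neg (fun h3 => h (sub_eq_zero.1 h3)), mul_zero]
  rw [sum_congr rfl fun m _ => h2 m, sum_ite_eq' univ z, if_pos (mem_univ _)]

/-- the sum over the family as a sum over the characters -/
theorem sum_identity {r : ℕ} {L : Fin r → ℕ} (c : ∀ j, Fin (L j) → ZMod M) (u : ZMod M → ℝ) (n : ZMod M) :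
    (M : ℂ) * ((∑ v : (∀ j, Fin (L j)), u (n - ∑ j, c j (v j)) : ℝ) : ℂ) =
      ∑ ξ, hat u ξ * (ZMod.stdAddChar (ξ * (-n)) : ℂ) * ∏ j, fam (c j) ξ := by
  push_cast
  rw [mul_sum]
  have h1 : ∀ v : (∀ j, Fin (L j)), (M : ℂ) * (u (n - ∑ j, c j (v j)) : ℂ) =
      ∑ ξ, hat u ξ * (ZMod.stdAddChar (ξ * (-n)) : ℂ) * ∏ j, (ZMod.stdAddChar (ξ * c j (v j)) : ℂ) := by
    intro v
    rw [← inversion]
    apply sum_congr rfl; intro ξ _
    rw [mul_assoc, ← chi_sum, ← AddChar.map_add_eq_mul, ← mul_sum, ← mul_add]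
    congr 3
    ring
  rw [sum_congr rfl fun v _ => h1 v, sum_comm]
  apply sum_congr rfl; intro ξ _
  rw [← mul_sum]
  congr 1
  unfold fam
  rw [Finset.prod_univ_sum]
  rfl

theorem energy_mod {t L N : ℕ} (a : Fin L → ℤ) (ha : ∀ i, |a i| ≤ N) (hM : 2 * t * N < M) :
    ∑ ξ, ‖fam (fun i => (a i : ZMod M)) ξ‖ ^ (2 * t) = M * en t a := by
  classical
  have h1 := moment_eq (M := M) (fun i => (a i : ZMod M)) t
  have h2 : (((univ : Finset ((Fin t → Fin L) × (Fin t → Fin L))).filter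
      (fun p => ∑ i, ((a (p.1 i) : ℤ) : ZMod M) = ∑ i, ((a (p.2 i) : ℤ) : ZMod M))).card : ℝ) = en t a := by
    unfold en
    congr 2
    apply filter_congr
    intro p _
    constructor
    · intro h
      have h3 : ((∑ i, a (p.1 i) : ℤ) : ZMod M) = ((∑ i, a (p.2 i) : ℤ) : ZMod M) := by
        push_cast; exact h
      rw [ZMod.intCast_eq_intCast_iff_dvd_sub] at h3
      have hb : ∀ q : Fin t → Fin L, |∑ i, a (q i)| ≤ t * N := by
        intro q
        refine (abs_sum_le_sum_abs _ _).trans ?_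
        calc ∑ i, |a (q i)| ≤ ∑ _i : Fin t, (N : ℤ) := sum_le_sum fun i _ => ha _
          _ = t * N := by simp
      have h4 : |∑ i, a (p.2 i) - ∑ i, a (p.1 i)| < M := by
        have b1 := abs_le.1 (hb p.1)
        have b2 := abs_le.1 (hb p.2)
        have hM' : (2 * t * N : ℤ) < M := by exact_mod_cast hM
        rw [abs_lt]; constructor <;> linarith [b1.1, b1.2, b2.1, b2.2]
      have h5 := Int.eq_zero_of_abs_lt_dvd h3 h4
      linarith
    · intro h
      have h3 : ((∑ i, a (p.1 i) : ℤ) : ZMod M) = ((∑ i, a (p.2 i) : ℤ) : ZMod M) := by rw [h]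
      push_cast at h3; exact h3
  rw [h1, h2]

/-- the bound of the product of the exponential sums -/
theorem prod_fam {r t N : ℕ} {L : Fin r → ℕ} (a : ∀ j, Fin (L j) → ℤ) (hL : ∀ j, 0 < L j)
    (ha : ∀ j i, |a j i| ≤ N) (hN : 0 < N) (ht : 1 ≤ t) {J : Finset (Fin r)} (hJ : 2 * t ≤ J.card) {K : ℝ}
    (hK : 0 ≤ K)
    (hE : ∀ j ∈ J, (en t (a j) : ℝ) * N ≤ K * (L j : ℝ) ^ (2 * t)) (hM : 2 * t * N < M) :
    ∑ ξ : ZMod M, ∏ j, ‖fam (fun i => (a j i : ZMod M)) ξ‖ ≤ (r * (M * K) / N) * ∏ j, (L j : ℝ) := by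
  classical
  have hN0 : (0 : ℝ) < N := by exact_mod_cast hN
  have hM0 : (0 : ℝ) < M := by exact_mod_cast Nat.pos_of_ne_zero (NeZero.ne M)
  have hL0 : ∀ j, (0 : ℝ) < L j := fun j => by exact_mod_cast hL j
  have hPL : 0 < ∏ j, (L j : ℝ) := prod_pos fun j _ => hL0 j
  have h1 : ∀ ξ : ZMod M, ∏ j, ‖fam (fun i => (a j i : ZMod M)) ξ‖ ≤
      (∑ j ∈ J, (‖fam (fun i => (a j i : ZMod M)) ξ‖ / L j) ^ (2 * t)) * ∏ j, (L j : ℝ) := by
    intro ξ
    have h2 := prod_le_sum (fun j => ‖fam (fun i => (a j i : ZMod M)) ξ‖ / L j) (fun j => by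
      refine ⟨by positivity, ?_⟩
      rw [div_le_one (hL0 j)]
      have := norm_fam_le (fun i => (a j i : ZMod M)) ξ
      rwa [Fintype.card_fin] at this) ht hJ
    have h3 : ∏ j, ‖fam (fun i => (a j i : ZMod M)) ξ‖ =
        (∏ j, ‖fam (fun i => (a j i : ZMod M)) ξ‖ / L j) * ∏ j, (L j : ℝ) := by
      rw [← prod_mul_distrib]
      apply prod_congr rfl; intro j _
      rw [div_mul_cancel₀ _ (hL0 j).ne']
    rw [h3]
    exact mul_le_mul_of_nonneg_right h2 hPL.le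
  refine (sum_le_sum fun ξ _ => h1 ξ).trans ?_
  rw [← sum_mul]
  apply mul_le_mul_of_nonneg_right _ hPL.le
  rw [sum_comm]
  have h4 : ∀ j ∈ J, ∑ ξ : ZMod M, (‖fam (fun i => (a j i : ZMod M)) ξ‖ / L j) ^ (2 * t) ≤ M * K / N := by
    intro j hj
    have h5 : ∑ ξ : ZMod M, (‖fam (fun i => (a j i : ZMod M)) ξ‖ / L j) ^ (2 * t) =
        M * en t (a j) / (L j : ℝ) ^ (2 * t) := by
      rw [← energy_mod (a j) (ha j) hM, sum_div]
      apply sum_congr rfl; intro ξ _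
      rw [div_pow]
    rw [h5, div_le_div_iff₀ (by have := hL0 j; positivity) hN0]
    calc (M : ℝ) * en t (a j) * N = M * (en t (a j) * N) := by ring
      _ ≤ M * (K * (L j : ℝ) ^ (2 * t)) := mul_le_mul_of_nonneg_left (hE j hj) hM0.le
      _ = _ := by ring
  calc _ ≤ ∑ _j ∈ J, (M : ℝ) * K / N := sum_le_sum h4
    _ = J.card * (M * K / N) := by rw [sum_const, nsmul_eq_mul]
    _ ≤ r * (M * K / N) := by
        apply mul_le_mul_of_nonneg_right _ (by positivity)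
        have := card_le_univ J
        rw [Fintype.card_fin] at this
        exact_mod_cast this
    _ = _ := by ring

/-- the values of a function on an interval as a function on the residues -/
theorem onInt_int {P : ℕ} (hP : 2 * P < M) (g : ℤ → ℝ) {m : ℤ} (hm : |m| ≤ P) :
    onInt P g (m : ZMod M) = if 0 < m then g m else 0 := by
  have hm' := abs_le.1 hm
  by_cases h : 0 < m
  · obtain ⟨n, rfl⟩ : ∃ n : ℕ, m = n := ⟨m.toNat, by omega⟩
    have h4 : ((n : ℤ) : ZMod M).val = n := by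
      rw [Int.cast_natCast, ZMod.val_natCast_of_lt (by omega)]
    unfold onInt
    rw [h4, if_pos (by omega), if_pos h]
  · obtain ⟨n, hn⟩ : ∃ n : ℕ, m = -(n : ℤ) := ⟨(-m).toNat, by omega⟩
    subst hn
    rw [if_neg h]
    unfold onInt
    rw [if_neg]
    rintro ⟨h1, h2⟩
    rcases Nat.eq_zero_or_pos n with h0 | h0
    · subst h0
      simp at h1
    · have h5 : ((-(n : ℤ) : ℤ) : ZMod M) = ((M - n : ℕ) : ZMod M) := by
        rw [Nat.cast_sub (by omega)]
        push_cast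
        rw [ZMod.natCast_self]
        ring
      rw [h5, ZMod.val_natCast_of_lt (by omega)] at h2
      omega

end

/-- the finite form -/
theorem finite_waring {r t B N : ℕ} {K E : ℝ} (ht : 1 ≤ t) (hN : 0 < N) (hK : 0 ≤ K)
    (g : ℤ → ℝ) (δ : ℝ) (hes : ∀ α, ‖es g δ ((B + r + t) * N) α‖ ≤ E * N)
    {L : Fin r → ℕ} (a : ∀ j, Fin (L j) → ℤ) (ha : ∀ j i, |a j i| ≤ N) {J : Finset (Fin r)}
    (hJ : 2 * t ≤ J.card) (hE : ∀ j ∈ J, (en t (a j) : ℝ) * N ≤ K * (L j : ℝ) ^ (2 * t))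
    (n : ℤ) (hn : |n| ≤ B * N) :
    |∑ v : (∀ j, Fin (L j)), (if 0 < n - ∑ j, a j (v j) then g (n - ∑ j, a j (v j)) - δ else 0)| ≤
      E * (r * K) * ∏ j, (L j : ℝ) := by
  classical
  have hN0 : (0 : ℝ) < N := by exact_mod_cast hN
  have hE0 : 0 ≤ E := by
    have := (norm_nonneg _).trans (hes 0)
    exact nonneg_of_mul_nonneg_left this hN0
  by_cases hL : ∃ j, L j = 0
  · obtain ⟨j, hj⟩ := hL
    have h1 : IsEmpty (∀ j, Fin (L j)) := ⟨fun v => by have := (v j).2; omega⟩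
    rw [Finset.univ_eq_empty, Finset.sum_empty, abs_zero]
    exact mul_nonneg (mul_nonneg hE0 (mul_nonneg (Nat.cast_nonneg _) hK)) (prod_nonneg fun j _ => Nat.cast_nonneg _)
  push Not at hL
  have hL' : ∀ j, 0 < L j := fun j => Nat.pos_of_ne_zero (hL j)
  set P : ℕ := (B + r + t) * N with hP
  set M : ℕ := 2 * P + 1 with hM
  have : NeZero M := ⟨by omega⟩
  have hM0 : (0 : ℝ) < M := by exact_mod_cast (by omega : 0 < M)
  have hM1 : 2 * t * N < M := by rw [hM, hP]; nlinarith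
  set u : ZMod M → ℝ := onInt P (fun n => g n - δ) with hu
  have hb : ∀ v : (∀ j, Fin (L j)), |n - ∑ j, a j (v j)| ≤ P := by
    intro v
    have h1 : |∑ j, a j (v j)| ≤ r * N := by
      refine (abs_sum_le_sum_abs _ _).trans ?_
      calc ∑ j, |a j (v j)| ≤ ∑ _j : Fin r, (N : ℤ) := sum_le_sum fun j _ => ha _ _
        _ = r * N := by simp
    have h2 := abs_sub n (∑ j, a j (v j))
    have h3 : ((P : ℕ) : ℤ) = B * N + r * N + t * N := by rw [hP]; push_cast; ring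
    have h4 : (0 : ℤ) ≤ t * N := by positivity
    rw [h3]
    linarith
  have h1 := sum_identity (M := M) (fun j i => (a j i : ZMod M)) u (n : ZMod M)
  have h2 : ∑ v : (∀ j, Fin (L j)), u ((n : ZMod M) - ∑ j, (a j (v j) : ZMod M)) =
      ∑ v : (∀ j, Fin (L j)), (if 0 < n - ∑ j, a j (v j) then g (n - ∑ j, a j (v j)) - δ else 0) := by
    apply sum_congr rfl; intro v _
    have h3 : (n : ZMod M) - ∑ j, (a j (v j) : ZMod M) = ((n - ∑ j, a j (v j) : ℤ) : ZMod M) := by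
      push_cast; rfl
    rw [h3, hu, onInt_int (by omega) _ (hb v)]
  rw [h2] at h1
  have h4 : ∀ ξ : ZMod M, ‖hat u ξ‖ ≤ E * N := by
    intro ξ
    rw [hu, hat_onInt (by omega)]
    exact hes _
  have h5 : ‖∑ ξ : ZMod M, hat u ξ * (ZMod.stdAddChar (ξ * (-(n : ZMod M))) : ℂ) *
      ∏ j, fam (fun i => (a j i : ZMod M)) ξ‖ ≤ E * N * ((r * (M * K) / N) * ∏ j, (L j : ℝ)) := by
    refine (norm_sum_le _ _).trans ?_
    calc _ ≤ ∑ ξ : ZMod M, E * N * ∏ j, ‖fam (fun i => (a j i : ZMod M)) ξ‖ := by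
          apply sum_le_sum; intro ξ _
          rw [norm_mul, norm_mul, norm_chi, mul_one, norm_prod]
          exact mul_le_mul_of_nonneg_right (h4 ξ) (prod_nonneg fun j _ => norm_nonneg _)
      _ = E * N * ∑ ξ : ZMod M, ∏ j, ‖fam (fun i => (a j i : ZMod M)) ξ‖ := by rw [mul_sum]
      _ ≤ _ := mul_le_mul_of_nonneg_left (prod_fam a hL' ha hN ht hJ hK hE hM1) (by positivity)
  rw [← h1, norm_mul, Complex.norm_natCast, Complex.norm_real, Real.norm_eq_abs] at h5
  have h6 : E * N * ((r * (M * K) / N) * ∏ j, (L j : ℝ)) = M * (E * (r * K) * ∏ j, (L j : ℝ)) := by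
    field_simp
  rw [h6] at h5
  exact le_of_mul_le_mul_left h5 hM0

end Pool.Agent.Q49.WA
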