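import Mathlib
import Pool.Agent.Results.MP_d02c56_nt.WaringProblem

/-! Waring type problems for an arbitrary property of one summand. -/

set_option autoImplicit false

namespace Pool.Agent.Q49.WA

open Finset Filter Topology
open Pool.Agent.Results.MP_d02c56_nt.WaringProblem (vals Spread poly_spread eval_bound small_values_finite energy energy_eq)
open Pool.Agent.Y834.CD (es en)

/-- the number of the choices for which the difference is positive and has the property `Q` -/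
noncomputable def repsQ (Q : ℤ → Prop) (n : ℤ) {r : ℕ} {L : Fin r → ℕ} (a : ∀ j, Fin (L j) → ℤ) : ℕ :=
  {v : ∀ j, Fin (L j) | 0 < n - ∑ j, a j (v j) ∧ Q (n - ∑ j, a j (v j))}.ncard

/-- the number of the tuples for which the difference is positive and has the property `Q` -/
noncomputable def polyRepsQ (Q : ℤ → Prop) (n : ℕ) (P : Polynomial ℤ) (r : ℕ) : ℕ :=
  {m : Fin r → ℕ | (∀ j, 1 ≤ m j ∧ |P.eval (m j : ℤ)| ≤ n) ∧ 0 < (n : ℤ) - ∑ j, P.eval (m j : ℤ) ∧
    Q ((n : ℤ) - ∑ j, P.eval (m j : ℤ))}.ncard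

theorem polyRepsQ_finite (Q : ℤ → Prop) (n : ℕ) (P : Polynomial ℤ) (hP : 1 ≤ P.natDegree) (r : ℕ) :
    {m : Fin r → ℕ | (∀ j, 1 ≤ m j ∧ |P.eval (m j : ℤ)| ≤ n) ∧ 0 < (n : ℤ) - ∑ j, P.eval (m j : ℤ) ∧
    Q ((n : ℤ) - ∑ j, P.eval (m j : ℤ))}.Finite := by
  have h1 : (Set.univ.pi (fun _ : Fin r => {m : ℕ | |P.eval (m : ℤ)| ≤ n})).Finite :=
    Set.Finite.pi fun _ => small_values_finite P hP n
  refine h1.subset ?_
  rintro m ⟨hm, -, -⟩ j _
  exact (hm j).2

open scoped Classical in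
theorem repsQ_sum (Q : ℤ → Prop) (n : ℤ) {r : ℕ} {L : Fin r → ℕ} (a : ∀ j, Fin (L j) → ℤ) :
    (repsQ Q n a : ℝ) = ∑ v : (∀ j, Fin (L j)),
      (if 0 < n - ∑ j, a j (v j) then (if Q (n - ∑ j, a j (v j)) then (1 : ℝ) else 0) else 0) := by
  have h2 : {v : ∀ j, Fin (L j) | 0 < n - ∑ j, a j (v j) ∧ Q (n - ∑ j, a j (v j))} =
      (((univ : Finset (∀ j, Fin (L j))).filter (fun v => 0 < n - ∑ j, a j (v j) ∧
        Q (n - ∑ j, a j (v j))) : Finset _) : Set _) := by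
    ext v; simp
  unfold repsQ
  rw [h2, Set.ncard_coe_finset, card_filter]
  push_cast
  apply sum_congr rfl; intro v _
  by_cases hA : 0 < n - ∑ j, a j (v j)
  · by_cases hB : Q (n - ∑ j, a j (v j))
    · rw [if_pos ⟨hA, hB⟩, if_pos hA, if_pos hB]
    · rw [if_neg (fun h => hB h.2), if_pos hA, if_neg hB]
  · rw [if_neg (fun h => hA h.1), if_neg hA]

open scoped Classical in
/-- comparison of two properties, in terms of Fourier coefficients -/
theorem compare {r t B : ℕ} (ht : 1 ≤ t) {K : ℝ} (hK : 0 ≤ K) {ε : ℝ} (hε : 0 < ε) : ∃ ε₁ : ℝ, 0 < ε₁ ∧ ε₁ ≤ 1 ∧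
    ∃ W : ℕ, 1 ≤ W ∧ ∀ N : ℕ, 1 ≤ N → ∀ (Q Q' : ℤ → Prop) (δ : ℝ),
    (∀ α : ℝ, ‖∑ n ∈ Icc 1 (W * N), (((if Q (n : ℕ) then (1 : ℝ) else 0) - δ * (if Q' (n : ℕ) then 1 else 0) : ℝ) : ℂ)
      * Complex.exp (2 * Real.pi * (α * n : ℝ) * Complex.I)‖ ≤ ε₁ * (W * N : ℕ)) →
    ∀ (L : Fin r → ℕ) (a : ∀ j, Fin (L j) → ℤ), (∀ j i, |a j i| ≤ N) →
    ∀ J : Finset (Fin r), 2 * t ≤ J.card → (∀ j ∈ J, Spread t K N (a j)) → ∀ n : ℤ, |n| ≤ B * N →
      |(repsQ Q n a : ℝ) - δ * repsQ Q' n a| ≤ ε * ∏ j, (L j : ℝ) := by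
  set w : ℝ := ((B + r + t : ℕ) : ℝ) with hw
  have hw0 : 0 < w := by rw [hw]; exact_mod_cast (by omega : 0 < B + r + t)
  have hrK : (0 : ℝ) ≤ r * K := mul_nonneg (Nat.cast_nonneg _) hK
  set ε₁ : ℝ := min (ε / (w * (r * K + 1))) 1 with hε₁
  have hε₁0 : 0 < ε₁ := by rw [hε₁]; positivity
  refine ⟨ε₁, hε₁0, min_le_right _ _, B + r + t, by omega, fun N hN Q Q' δ hF L a ha J hJ hsp n hn => ?_⟩
  have hN0 : (0 : ℝ) < N := by exact_mod_cast hN
  rw [repsQ_sum, repsQ_sum, mul_sum, ← sum_sub_distrib]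
  have h1 := finite_waring (K := K) (E := ε₁ * w) ht (by omega : 0 < N) hK
    (fun n => (if Q n then (1 : ℝ) else 0) - δ * (if Q' n then 1 else 0)) 0 (fun α => by
      have h2 := hF α
      unfold es
      simp only [sub_zero]
      refine h2.trans (le_of_eq ?_)
      rw [hw]; push_cast; ring) a ha hJ (fun j hj => by
      have h3 := hsp j hj
      unfold Spread at h3
      rwa [energy_eq, le_div_iff₀ hN0] at h3) n hn
  refine le_trans (le_of_eq ?_) (h1.trans ?_)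
  · congr 1
    apply sum_congr rfl; intro v _
    split_ifs <;> ring
  · apply mul_le_mul_of_nonneg_right _ (prod_nonneg fun j _ => Nat.cast_nonneg _)
    calc ε₁ * w * (r * K) ≤ ε / (w * (r * K + 1)) * w * (r * K) := by
          apply mul_le_mul_of_nonneg_right _ hrK
          exact mul_le_mul_of_nonneg_right (min_le_left _ _) hw0.le
      _ = ε * ((r * K) / (r * K + 1)) := by field_simp
      _ ≤ ε * 1 := by
          apply mul_le_mul_of_nonneg_left _ hε.le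
          rw [div_le_one (by positivity)]
          linarith
      _ = ε := mul_one _

open scoped Classical in
/-- a property of small density, every integer -/
theorem few {r t B : ℕ} (ht : 1 ≤ t) {K : ℝ} (hK : 0 ≤ K) : ∃ C : ℝ, 0 < C ∧ ∃ W : ℕ, 1 ≤ W ∧ ∀ N : ℕ, 1 ≤ N →
    ∀ (Q : ℤ → Prop) (E : ℝ), ((((Icc 1 (W * N)).filter (fun n : ℕ => Q n)).card : ℕ) : ℝ) ≤ E * N →
    ∀ (L : Fin r → ℕ) (a : ∀ j, Fin (L j) → ℤ), (∀ j i, |a j i| ≤ N) →
    ∀ J : Finset (Fin r), 2 * t ≤ J.card → (∀ j ∈ J, Spread t K N (a j)) → ∀ n : ℤ, |n| ≤ B * N →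
      (repsQ Q n a : ℝ) ≤ E * C * ∏ j, (L j : ℝ) := by
  refine ⟨r * K + 1, by positivity, B + r + t, by omega, fun N hN Q E hE L a ha J hJ hsp n hn => ?_⟩
  have hN0 : (0 : ℝ) < N := by exact_mod_cast hN
  have hE0 : 0 ≤ E := nonneg_of_mul_nonneg_left ((Nat.cast_nonneg _).trans hE) hN0
  rw [repsQ_sum]
  have h1 := finite_waring (K := K) (E := E) ht (by omega : 0 < N) hK
    (fun n => (if Q n then (1 : ℝ) else 0)) 0 (fun α => by
      unfold es
      simp only [sub_zero]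
      refine (norm_sum_le _ _).trans (le_trans ?_ hE)
      rw [card_filter]
      push_cast
      apply sum_le_sum; intro n _
      rw [norm_mul, Complex.norm_real, Real.norm_eq_abs]
      have e1 : ‖Complex.exp (2 * Real.pi * ((α : ℂ) * (n : ℂ)) * Complex.I)‖ = 1 := by
        have e2 : (2 * (Real.pi : ℂ) * ((α : ℂ) * (n : ℂ)) * Complex.I) = ((2 * Real.pi * (α * n) : ℝ) : ℂ) * Complex.I := by
          push_cast; ring
        rw [e2, Complex.norm_exp_ofReal_mul_I]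
      rw [e1, mul_one]
      split_ifs <;> simp) a ha hJ (fun j hj => by
      have h3 := hsp j hj
      unfold Spread at h3
      rwa [energy_eq, le_div_iff₀ hN0] at h3) n hn
  refine le_trans (le_trans (le_abs_self _) ((le_of_eq ?_).trans h1)) ?_
  · congr 1
    apply sum_congr rfl; intro v _
    split_ifs <;> ring
  · apply mul_le_mul_of_nonneg_right _ (prod_nonneg fun j _ => Nat.cast_nonneg _)
    exact mul_le_mul_of_nonneg_left (by linarith) hE0

/-- boxes for a polynomial -/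
theorem boxes {P : Polynomial ℤ} (hP : 1 ≤ P.natDegree) {r : ℕ} (hr1 : 1 ≤ r) : ∃ B : ℕ, 1 ≤ B ∧
    ∀ n : ℕ, B ≤ n → ∃ L : ℕ, 1 ≤ L ∧ n ≤ B * L ^ P.natDegree ∧
      (∀ m : ℕ, 1 ≤ m → m ≤ L → |P.eval (m : ℤ)| ≤ n) ∧
      (∀ v : Fin r → Fin L, 0 < (n : ℤ) - ∑ j, vals P L (v j)) ∧
      ∀ (Q : ℤ → Prop) (c : ℝ), 0 ≤ c → c * (L : ℝ) ^ r ≤ repsQ Q (n : ℤ) (fun _ : Fin r => vals P L) →
        c * (1 / (B : ℝ)) ^ ((r : ℝ) / P.natDegree) * (n : ℝ) ^ ((r : ℝ) / P.natDegree) ≤ polyRepsQ Q n P r := by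
  classical
  obtain ⟨c, hc, hcP⟩ := eval_bound P
  set d := P.natDegree with hd
  set q : ℕ := 2 * r * c with hq
  have hq2 : 1 ≤ q := by rw [hq]; exact Nat.mul_pos (by omega) hc
  set B : ℕ := q * 2 ^ d with hB
  have hB1 : 1 ≤ B := Nat.mul_pos hq2 (by positivity)
  have hBR : (0 : ℝ) < B := by exact_mod_cast hB1
  have hqB : q ≤ B := Nat.le_mul_of_pos_right _ (by positivity)
  refine ⟨B, hB1, fun n hn => ?_⟩
  have hnpos : 0 < n := by omega
  -- the length
  set L : ℕ := Nat.findGreatest (fun L => q * L ^ d ≤ n) n with hL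
  have hL1 : q * L ^ d ≤ n := by
    have : (fun L => q * L ^ d ≤ n) 1 := by simp only [one_pow, mul_one]; omega
    exact Nat.findGreatest_spec (P := fun L => q * L ^ d ≤ n) (by omega : 1 ≤ n) this
  have hLge : 1 ≤ L := by
    have : (fun L => q * L ^ d ≤ n) 1 := by simp only [one_pow, mul_one]; omega
    exact Nat.le_findGreatest (by omega : 1 ≤ n) this
  have hL2 : n < q * (L + 1) ^ d := by
    by_contra hcon
    rw [not_lt] at hcon
    have h1 : L + 1 ≤ n := by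
      calc L + 1 ≤ (L + 1) ^ d := Nat.le_self_pow (by omega) _
        _ ≤ q * (L + 1) ^ d := Nat.le_mul_of_pos_left _ hq2
        _ ≤ n := hcon
    have h2 := Nat.le_findGreatest (P := fun L => q * L ^ d ≤ n) h1 hcon
    rw [← hL] at h2
    omega
  have hL3 : n ≤ B * L ^ d := by
    calc n ≤ q * (L + 1) ^ d := hL2.le
      _ ≤ q * (2 * L) ^ d := Nat.mul_le_mul le_rfl (Nat.pow_le_pow_left (by omega) _)
      _ = _ := by rw [hB, mul_pow]; ring
  have hval : ∀ m : ℕ, 1 ≤ m → m ≤ L → 2 * (r : ℤ) * |P.eval (m : ℤ)| ≤ n := by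
    intro m hm hmL
    have h1 := hcP m hm
    have h2 : (c : ℤ) * (m : ℤ) ^ d ≤ c * (L : ℤ) ^ d := by
      apply mul_le_mul_of_nonneg_left _ (by positivity)
      exact pow_le_pow_left₀ (by positivity) (by exact_mod_cast hmL) _
    calc 2 * (r : ℤ) * |P.eval (m : ℤ)| ≤ 2 * (r : ℤ) * (c * (L : ℤ) ^ d) :=
          mul_le_mul_of_nonneg_left (h1.trans h2) (by positivity)
      _ = ((q * L ^ d : ℕ) : ℤ) := by rw [hq]; push_cast; ring
      _ ≤ n := by exact_mod_cast hL1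
  have hval1 : ∀ m : ℕ, 1 ≤ m → m ≤ L → |P.eval (m : ℤ)| ≤ n := by
    intro m hm hmL
    have h1 := hval m hm hmL
    have h2 : (1 : ℤ) ≤ r := by exact_mod_cast hr1
    nlinarith [abs_nonneg (P.eval (m : ℤ))]
  -- all choices give positive differences
  have hpos : ∀ v : Fin r → Fin L, 0 < (n : ℤ) - ∑ j, vals P L (v j) := by
    intro v
    have e1 : 2 * ∑ j, vals P L (v j) ≤ n := by
      have e2 : ∀ j, 2 * (r : ℤ) * vals P L (v j) ≤ n := by
        intro j
        have e3 := hval ((v j : ℕ) + 1) (by omega) (by have := (v j).2; omega)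
        have e4 := le_abs_self (P.eval (((v j : ℕ) + 1 : ℕ) : ℤ))
        unfold vals
        nlinarith [e4, (by exact_mod_cast hr1 : (1 : ℤ) ≤ r)]
      have e5 : 2 * (r : ℤ) * ∑ j, vals P L (v j) ≤ r * n := by
        rw [mul_sum]
        calc _ ≤ ∑ _j : Fin r, (n : ℤ) := sum_le_sum fun j _ => e2 j
          _ = r * n := by simp
      have e6 : (0 : ℤ) < r := by exact_mod_cast hr1
      have e7 : (r : ℤ) * (2 * ∑ j, vals P L (v j)) ≤ r * n := by linarith
      exact le_of_mul_le_mul_left e7 e6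
    have : (0 : ℤ) < n := by exact_mod_cast hnpos
    linarith
  refine ⟨L, hLge, hL3, hval1, hpos, fun Q c hc0 h3 => ?_⟩
  have h4 : repsQ Q (n : ℤ) (fun _ : Fin r => vals P L) ≤ polyRepsQ Q n P r := by
    unfold repsQ polyRepsQ
    have hinj : Function.Injective (fun (v : Fin r → Fin L) (j : Fin r) => (v j : ℕ) + 1) := by
      intro v w hvw
      funext j
      have := congrFun hvw j
      simp only [Nat.add_right_cancel_iff] at this
      exact Fin.ext this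
    rw [← Set.ncard_image_of_injective _ hinj]
    apply Set.ncard_le_ncard _ (polyRepsQ_finite Q n P hP r)
    rintro m ⟨v, ⟨hv1, hv2⟩, rfl⟩
    exact ⟨fun j => ⟨Nat.le_add_left 1 _, hval1 ((v j : ℕ) + 1) (Nat.le_add_left 1 _) (v j).2⟩, hv1, hv2⟩
  have h5 : (repsQ Q (n : ℤ) (fun _ : Fin r => vals P L) : ℝ) ≤ polyRepsQ Q n P r := by exact_mod_cast h4
  refine le_trans ?_ (h3.trans h5)
  rw [mul_assoc]
  apply mul_le_mul_of_nonneg_left _ hc0
  rw [← Real.mul_rpow (by positivity) (Nat.cast_nonneg _)]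
  have hd0 : (0 : ℝ) < d := by exact_mod_cast hP
  calc (1 / (B : ℝ) * n) ^ ((r : ℝ) / d) ≤ ((L : ℝ) ^ (d : ℝ)) ^ ((r : ℝ) / d) := by
        apply Real.rpow_le_rpow (by positivity) _ (by positivity)
        rw [Real.rpow_natCast, one_div, inv_mul_le_iff₀ hBR]
        exact_mod_cast hL3
    _ = (L : ℝ) ^ r := by
        rw [← Real.rpow_mul (Nat.cast_nonneg _), mul_div_cancel₀ _ hd0.ne', Real.rpow_natCast]

end Pool.Agent.Q49.WA
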