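import Pool.Agent.Q49.WA.Ev

/-! The tuples with bounded polynomial values form a box. -/

set_option autoImplicit false

namespace Pool.Agent.Q49.WA

open Finset Filter Topology
open Pool.Agent.Results.MP_d02c56_nt.WaringProblem (vals Spread poly_spread eval_bound small_values_finite energy energy_eq)

/-- growth of a polynomial -/
theorem growth (P : Polynomial ℤ) (hP : 1 ≤ P.natDegree) : ∃ S : ℕ, 1 ≤ S ∧ ∀ m : ℕ, S ≤ m →
    (m : ℤ) ^ P.natDegree ≤ 2 * |P.eval (m : ℤ)| := by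
  set d := P.natDegree with hd
  set A : ℤ := ∑ i ∈ range d, |P.coeff i| with hA
  have hA0 : 0 ≤ A := sum_nonneg fun _ _ => abs_nonneg _
  refine ⟨2 * A.toNat + 1, by omega, fun m hm => ?_⟩
  have hmA : 2 * A ≤ m := by
    have : A = (A.toNat : ℤ) := (Int.toNat_of_nonneg hA0).symm
    omega
  have hm1 : (1 : ℤ) ≤ m := by exact_mod_cast (by omega : 1 ≤ m)
  have h1 : P.eval (m : ℤ) = P.coeff d * (m : ℤ) ^ d + ∑ i ∈ range d, P.coeff i * (m : ℤ) ^ i := by
    rw [Polynomial.eval_eq_sum_range, ← hd, sum_range_succ]; ring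
  have h2 : |∑ i ∈ range d, P.coeff i * (m : ℤ) ^ i| ≤ A * (m : ℤ) ^ (d - 1) := by
    refine (abs_sum_le_sum_abs _ _).trans ?_
    rw [hA, sum_mul]
    apply sum_le_sum; intro i hi
    rw [mem_range] at hi
    rw [abs_mul, abs_of_nonneg (by positivity : (0 : ℤ) ≤ (m : ℤ) ^ i)]
    exact mul_le_mul_of_nonneg_left (pow_le_pow_right₀ hm1 (by omega)) (abs_nonneg _)
  have h3 : 2 * (A * (m : ℤ) ^ (d - 1)) ≤ (m : ℤ) ^ d := by
    have e : (m : ℤ) ^ d = m * (m : ℤ) ^ (d - 1) := by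
      rw [← pow_succ', Nat.sub_add_cancel hP]
    rw [e, ← mul_assoc]
    exact mul_le_mul_of_nonneg_right hmA (by positivity)
  have h4 : (m : ℤ) ^ d ≤ |P.coeff d * (m : ℤ) ^ d| := by
    rw [abs_mul, abs_of_nonneg (by positivity : (0 : ℤ) ≤ (m : ℤ) ^ d)]
    have h5 : P.coeff d ≠ 0 := by
      rw [hd]
      intro h
      have h6 : P = 0 := Polynomial.leadingCoeff_eq_zero.1 h
      rw [h6, Polynomial.natDegree_zero] at hd
      omega
    have h6 : 1 ≤ |P.coeff d| := Int.one_le_abs h5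
    exact le_mul_of_one_le_left (by positivity) h6
  have h5 : |P.coeff d * (m : ℤ) ^ d| ≤ |P.eval (m : ℤ)| + |∑ i ∈ range d, P.coeff i * (m : ℤ) ^ i| := by
    have e : P.coeff d * (m : ℤ) ^ d = P.eval (m : ℤ) - ∑ i ∈ range d, P.coeff i * (m : ℤ) ^ i := by rw [h1]; ring
    rw [e]
    exact abs_sub _ _
  linarith

/-- all tuples with bounded values lie in a box of spread families -/
theorem outer {P : Polynomial ℤ} (hP : 1 ≤ P.natDegree) (r : ℕ) : ∃ B : ℕ, 1 ≤ B ∧ ∃ D : ℝ, 0 < D ∧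
    ∀ n : ℕ, 1 ≤ n → ∃ L N : ℕ, n ≤ N ∧ N ≤ B * n ∧ N ≤ B * L ^ P.natDegree ∧
      (∀ m : ℕ, 1 ≤ m → m ≤ L → |P.eval (m : ℤ)| ≤ N) ∧ (L : ℝ) ^ r ≤ D * (n : ℝ) ^ ((r : ℝ) / P.natDegree) ∧
      ∀ Q : ℤ → Prop, polyRepsQ Q n P r ≤ repsQ Q (n : ℤ) (fun _ : Fin r => vals P L) := by
  classical
  obtain ⟨c, hc, hcP⟩ := eval_bound P
  obtain ⟨S, hS1, hS⟩ := growth P hP
  set d := P.natDegree with hd
  set U : ℕ := 2 + S ^ d with hU
  have hU0 : 0 < U := by omega
  refine ⟨c * U * 2 ^ d, Nat.mul_pos (Nat.mul_pos hc hU0) (by positivity), (U : ℝ) ^ ((r : ℝ) / d), by positivity, fun n hn => ?_⟩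
  set M : ℕ := 2 * n + S ^ d with hM
  have hMU : M ≤ U * n := by
    rw [hM, hU, Nat.add_mul]
    exact Nat.add_le_add_left (Nat.le_mul_of_pos_right _ hn) _
  set L : ℕ := Nat.findGreatest (fun L => L ^ d ≤ M) M with hL
  have hM1 : 1 ≤ M := by omega
  have hL1 : L ^ d ≤ M := by
    have : (fun L => L ^ d ≤ M) 1 := by simp only [one_pow]; omega
    exact Nat.findGreatest_spec (P := fun L => L ^ d ≤ M) (by omega : 1 ≤ M) this
  have hLge : 1 ≤ L := by
    have : (fun L => L ^ d ≤ M) 1 := by simp only [one_pow]; omega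
    exact Nat.le_findGreatest (by omega : 1 ≤ M) this
  have hL2 : M < (L + 1) ^ d := by
    by_contra hcon
    rw [not_lt] at hcon
    have h1 : L + 1 ≤ M := (Nat.le_self_pow (by omega) _).trans hcon
    have h2 := Nat.le_findGreatest (P := fun L => L ^ d ≤ M) h1 hcon
    rw [← hL] at h2
    omega
  have hL3 : n ≤ 2 ^ d * L ^ d := by
    calc n ≤ M := by omega
      _ ≤ (L + 1) ^ d := hL2.le
      _ ≤ (2 * L) ^ d := Nat.pow_le_pow_left (by omega) _
      _ = _ := mul_pow _ _ _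
  refine ⟨L, c * U * n, ?_, ?_, ?_, ?_, ?_, ?_⟩
  · exact Nat.le_mul_of_pos_left _ (Nat.mul_pos hc hU0)
  · calc c * U * n ≤ c * U * n * 2 ^ d := Nat.le_mul_of_pos_right _ (by positivity)
      _ = _ := by ring
  · calc c * U * n ≤ c * U * (2 ^ d * L ^ d) := Nat.mul_le_mul_left _ hL3
      _ = _ := by ring
  · intro m hm hmL
    have h1 := hcP m hm
    have h2 : (m : ℤ) ^ d ≤ (L : ℤ) ^ d := pow_le_pow_left₀ (by positivity) (by exact_mod_cast hmL) _
    have h3 : (L : ℤ) ^ d ≤ U * n := by exact_mod_cast hL1.trans hMU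
    calc |P.eval (m : ℤ)| ≤ c * (m : ℤ) ^ d := h1
      _ ≤ c * (U * n) := mul_le_mul_of_nonneg_left (h2.trans h3) (by positivity)
      _ = ((c * U * n : ℕ) : ℤ) := by push_cast; ring
  · have hd0 : (0 : ℝ) < d := by exact_mod_cast hP
    have h1 : ((L : ℝ) ^ d) ≤ U * n := by exact_mod_cast hL1.trans hMU
    calc (L : ℝ) ^ r = ((L : ℝ) ^ (d : ℝ)) ^ ((r : ℝ) / d) := by
          rw [← Real.rpow_mul (Nat.cast_nonneg _), mul_div_cancel₀ _ hd0.ne', Real.rpow_natCast]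
      _ ≤ (U * n : ℝ) ^ ((r : ℝ) / d) := by
          apply Real.rpow_le_rpow (by positivity) _ (by positivity)
          rw [Real.rpow_natCast]
          exact h1
      _ = _ := by rw [Real.mul_rpow (by positivity) (by positivity)]
  · intro Q
    unfold repsQ polyRepsQ
    have key : ∀ m : ℕ, 1 ≤ m → |P.eval (m : ℤ)| ≤ n → m ≤ L := by
      intro m hm hPm
      by_contra hcon
      rw [not_le] at hcon
      have h1 : M < m ^ d := hL2.trans_le (Nat.pow_le_pow_left (by omega) _)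
      rcases le_or_gt S m with h2 | h2
      · have h3 := hS m h2
        have h4 : (m : ℤ) ^ d ≤ 2 * n := h3.trans (by linarith)
        have h5 : m ^ d ≤ 2 * n := by exact_mod_cast h4
        omega
      · have h3 : m ^ d ≤ S ^ d := Nat.pow_le_pow_left h2.le _
        omega
    have hsub : {m : Fin r → ℕ | (∀ j, 1 ≤ m j ∧ |P.eval (m j : ℤ)| ≤ n) ∧ 0 < (n : ℤ) - ∑ j, P.eval (m j : ℤ) ∧
        Q ((n : ℤ) - ∑ j, P.eval (m j : ℤ))} ⊆ (fun (v : Fin r → Fin L) (j : Fin r) => (v j : ℕ) + 1) ''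
        {v : ∀ _j : Fin r, Fin L | 0 < (n : ℤ) - ∑ j, vals P L (v j) ∧ Q ((n : ℤ) - ∑ j, vals P L (v j))} := by
      rintro m ⟨h1, h2, h3⟩
      have hlt : ∀ j, m j - 1 < L := fun j => by
        have := key (m j) (h1 j).1 (h1 j).2
        have := (h1 j).1
        omega
      have e : ∀ j, vals P L ⟨m j - 1, hlt j⟩ = P.eval (m j : ℤ) := fun j => by
        unfold vals
        have : (m j - 1 + 1 : ℕ) = m j := Nat.sub_add_cancel (h1 j).1
        simp only [this]
      refine ⟨fun j => ⟨m j - 1, hlt j⟩, ⟨?_, ?_⟩, ?_⟩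
      · simp only [e]; exact h2
      · simp only [e]; exact h3
      · funext j
        exact Nat.sub_add_cancel (h1 j).1
    refine (Set.ncard_le_ncard hsub (Set.toFinite _)).trans (Set.ncard_image_le (Set.toFinite _))

end Pool.Agent.Q49.WA
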