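import Pool.Agent.Q49.WA.Ev
import Pool.Agent.Results.MP_7f88e4_nt.GowersStructure

/-! Fourier uniformity, restricted to a residue class, of the invariant sets of the `3x+k` map. -/

set_option autoImplicit false

namespace Pool.Agent.Q49.WA

open Finset Filter Topology

theorem restrict {q : ℕ} [NeZero q] (F : ℕ → ℂ) (N : ℕ) {E : ℝ}
    (h : ∀ α : ℝ, ‖∑ n ∈ Icc 1 N, F n * Complex.exp (2 * Real.pi * (α * n : ℝ) * Complex.I)‖ ≤ E) (c : ℤ) (α : ℝ) :
    ‖∑ n ∈ Icc 1 N, (if (n : ℤ) ≡ c [ZMOD q] then F n else 0) * Complex.exp (2 * Real.pi * (α * n : ℝ) * Complex.I)‖ ≤ E := by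
  have hq : (0 : ℝ) < q := by exact_mod_cast Nat.pos_of_ne_zero (NeZero.ne q)
  have hqC : (q : ℂ) ≠ 0 := by exact_mod_cast NeZero.ne q
  have e1 : ∀ n : ℕ, (if (n : ℤ) ≡ c [ZMOD q] then F n else 0) =
      (1 / (q : ℂ)) * ∑ j : ZMod q, F n * ((ZMod.stdAddChar (j * (n : ZMod q)) : ℂ) * ZMod.stdAddChar (j * (-(c : ZMod q)))) := by
    intro n
    have h1 : ∀ j : ZMod q, (ZMod.stdAddChar (j * (n : ZMod q)) : ℂ) * ZMod.stdAddChar (j * (-(c : ZMod q)))
        = ZMod.stdAddChar (j * ((n : ZMod q) - (c : ZMod q))) := by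
      intro j
      rw [← AddChar.map_add_eq_mul, ← mul_add, ← sub_eq_add_neg]
    simp_rw [h1]
    rw [← mul_sum, Pool.Agent.H373R2.NB.sum_chi]
    have h2 : (n : ZMod q) - (c : ZMod q) = 0 ↔ (n : ℤ) ≡ c [ZMOD q] := by
      rw [sub_eq_zero, ← ZMod.intCast_eq_intCast_iff]; push_cast; rfl
    by_cases h3 : (n : ℤ) ≡ c [ZMOD q]
    · rw [if_pos h3, if_pos (h2.2 h3)]; field_simp
    · rw [if_neg h3, if_neg (fun h4 => h3 (h2.1 h4))]; simp
  have e2 : ∀ (j : ZMod q) (n : ℕ), (ZMod.stdAddChar (j * (n : ZMod q)) : ℂ) * Complex.exp (2 * Real.pi * (α * n : ℝ) * Complex.I)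
      = Complex.exp (2 * Real.pi * ((α + (j.val : ℝ) / q) * n : ℝ) * Complex.I) := by
    intro j n
    have h1 : j * (n : ZMod q) = (((j.val * n : ℕ) : ℤ) : ZMod q) := by
      push_cast
      rw [ZMod.natCast_val, ZMod.cast_id', id]
    rw [h1, ZMod.stdAddChar_coe, ← Complex.exp_add]
    congr 1
    push_cast
    field_simp
    ring
  have e3 : ∑ n ∈ Icc 1 N, (if (n : ℤ) ≡ c [ZMOD q] then F n else 0) * Complex.exp (2 * Real.pi * (α * n : ℝ) * Complex.I)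
      = (1 / (q : ℂ)) * ∑ j : ZMod q, (ZMod.stdAddChar (j * (-(c : ZMod q))) : ℂ) *
        ∑ n ∈ Icc 1 N, F n * Complex.exp (2 * Real.pi * ((α + (j.val : ℝ) / q) * n : ℝ) * Complex.I) := by
    simp_rw [e1, ← e2]
    rw [mul_sum]
    have e4 : ∀ n : ℕ, 1 / (q : ℂ) * (∑ j : ZMod q, F n * ((ZMod.stdAddChar (j * (n : ZMod q)) : ℂ) * ZMod.stdAddChar (j * (-(c : ZMod q)))))
        * Complex.exp (2 * Real.pi * (α * n : ℝ) * Complex.I) = ∑ j : ZMod q, 1 / (q : ℂ) * ((ZMod.stdAddChar (j * (-(c : ZMod q))) : ℂ) *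
          (F n * ((ZMod.stdAddChar (j * (n : ZMod q)) : ℂ) * Complex.exp (2 * Real.pi * (α * n : ℝ) * Complex.I)))) := by
      intro n
      rw [mul_sum, sum_mul]
      apply sum_congr rfl; intro j _
      ring
    rw [sum_congr rfl fun n _ => e4 n, sum_comm]
    apply sum_congr rfl; intro j _
    rw [mul_sum, mul_sum]
  rw [e3, norm_mul, norm_div, norm_one, Complex.norm_natCast]
  have h5 : ‖∑ j : ZMod q, (ZMod.stdAddChar (j * (-(c : ZMod q))) : ℂ) *
        ∑ n ∈ Icc 1 N, F n * Complex.exp (2 * Real.pi * ((α + (j.val : ℝ) / q) * n : ℝ) * Complex.I)‖ ≤ q * E := by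
    refine (norm_sum_le _ _).trans ?_
    calc _ ≤ ∑ _j : ZMod q, E := sum_le_sum fun j _ => by
          rw [norm_mul, Pool.Agent.H373R2.NB.norm_chi, one_mul]
          exact h _
      _ = q * E := by rw [sum_const, card_univ, ZMod.card, nsmul_eq_mul]
  calc 1 / (q : ℝ) * _ ≤ 1 / (q : ℝ) * (q * E) := mul_le_mul_of_nonneg_left h5 (by positivity)
    _ = E := by field_simp

end Pool.Agent.Q49.WA
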